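import Pool.Agent.H502Z.Mad.Main

set_option autoImplicit false

namespace Pool.Agent.Results.MP_3ce754_lc.ADistribLeBorel

open Pool.Agent.H502Z.Mad

/-- The distributivity number is at most the Borel almost disjointness number. -/
theorem result : distrib ≤ aBorel := main

end Pool.Agent.Results.MP_3ce754_lc.ADistribLeBorel
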